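import Pool.Agent.W937.FG.Stm

/-!
Backward macros with decrement errors never decrease the value.
-/

set_option autoImplicit false

namespace Pool.Agent.W45.FG2.AS2

open Pool.Agent.W937.FG Function

section inv
variable {T K : Type} [DecidableEq K] {e : Bool}

lemma inv_op {o : Op T K} {s s' : K → ℕ} {w : List T} (h : Exec e (.op o) s w s') :
    ExecO e o s w s' := by
  cases h with
  | op h => exact h

lemma inv_seq {p q : Prog T K} {s u : K → ℕ} {w : List T} (h : Exec e (.seq p q) s w u) :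
    ∃ (t : K → ℕ) (w1 w2 : List T), w = w1 ++ w2 ∧ Exec e p s w1 t ∧ Exec e q t w2 u := by
  cases h with
  | seq h1 h2 => exact ⟨_, _, _, rfl, h1, h2⟩

lemma inv_alt {p q : Prog T K} {s u : K → ℕ} {w : List T} (h : Exec e (.alt p q) s w u) :
    Exec e p s w u ∨ Exec e q s w u := by
  cases h with
  | altl h => exact Or.inl h
  | altr h => exact Or.inr h

lemma inv_star {p : Prog T K} {R : (K → ℕ) → (K → ℕ) → Prop} (hr : ∀ s, R s s)
    (ht : ∀ s t u, R s t → R t u → R s u)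
    (hp : ∀ s w t, Exec e p s w t → w = [] ∧ R s t) {s t : K → ℕ} {w : List T}
    (h : Exec e (.star p) s w t) : w = [] ∧ R s t := by
  generalize hq : Prog.star p = q at h
  induction h with
  | op _ => cases hq
  | seq _ _ _ _ => cases hq
  | altl _ _ => cases hq
  | altr _ _ => cases hq
  | star_nil => exact ⟨rfl, hr _⟩
  | star_cons h1 h2 ih1 ih2 =>
    cases hq
    obtain ⟨e1, r1⟩ := hp _ _ _ h1
    obtain ⟨e2, r2⟩ := ih2 rfl
    exact ⟨by rw [e1, e2]; rfl, ht _ _ _ r1 r2⟩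

end inv

variable {T : Type}

lemma inv_dec {i : Reg} {s s' : Reg → ℕ} {w : List T} (h : Exec true (decP T i) s w s') :
    w = [] ∧ (∀ j, j ≠ i → s' j = s j) ∧ s i ≤ s' i + 1 := by
  obtain ⟨h1, h2⟩ := inv_op h
  refine ⟨h1, ?_⟩
  rcases h2 with ⟨h3, rfl⟩ | ⟨-, rfl⟩
  · refine ⟨fun j hj => update_of_ne hj _ _, ?_⟩
    rw [update_self]
    omega
  · exact ⟨fun j _ => rfl, Nat.le_succ _⟩

lemma inv_inc {i : Reg} {s s' : Reg → ℕ} {w : List T} (h : Exec true (incP T i) s w s') :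
    w = [] ∧ (∀ j, j ≠ i → s' j = s j) ∧ s' i = s i + 1 := by
  obtain ⟨h1, h2⟩ := inv_op h
  refine ⟨h1, ?_⟩
  rw [h2]
  exact ⟨fun j hj => update_of_ne hj _ _, update_self _ _ _⟩

lemma inv_zero {i : Reg} {s s' : Reg → ℕ} {w : List T} (h : Exec true (zeroP T i) s w s') :
    w = [] ∧ s i = 0 ∧ s = s' := by
  obtain ⟨h1, h2, h3⟩ := inv_op h
  exact ⟨h1, h2, h3.symm⟩

lemma inv_zeroA : ∀ (i : ℕ) {s s' : Reg → ℕ} {w : List T}, Exec true (zeroA T i) s w s' →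
    w = [] ∧ (∀ m, m < i → s (.A m) = 0) ∧ s = s' := by
  intro i
  induction i with
  | zero =>
    intro s s' w h
    obtain ⟨h1, h2⟩ := inv_op h
    exact ⟨h1, fun m hm => absurd hm (Nat.not_lt_zero _), h2.symm⟩
  | succ i ih =>
    intro s s' w h
    obtain ⟨t, w1, w2, rfl, h1, h2⟩ := inv_seq h
    obtain ⟨rfl, h3, rfl⟩ := ih h1
    obtain ⟨rfl, h4, rfl⟩ := inv_zero h2
    refine ⟨rfl, fun m hm => ?_, rfl⟩
    rcases Nat.lt_succ_iff_lt_or_eq.1 hm with h5 | rfl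
    · exact h3 m h5
    · exact h4

/-- the first loop -/
lemma loop1 {i : ℕ} {s s' : Reg → ℕ} {w : List T}
    (h : Exec true (.star (.seq (decP T .N) (.seq (incP T .T) (decP T (.A i))))) s w s') :
    w = [] ∧ (∀ j, j ≠ .N → j ≠ .T → j ≠ .A i → s' j = s j) ∧
      s .N + s .T ≤ s' .N + s' .T ∧ s (.A i) + s .T ≤ s' (.A i) + s' .T := by
  refine inv_star (R := fun s s' => (∀ j, j ≠ Reg.N → j ≠ .T → j ≠ .A i → s' j = s j) ∧
      s .N + s .T ≤ s' .N + s' .T ∧ s (.A i) + s .T ≤ s' (.A i) + s' .T) ?_ ?_ ?_ h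
  · exact fun s => ⟨fun _ _ _ _ => rfl, le_rfl, le_rfl⟩
  · rintro s t u ⟨h1, h2, h3⟩ ⟨h4, h5, h6⟩
    exact ⟨fun j a b c => (h4 j a b c).trans (h1 j a b c), h2.trans h5, h3.trans h6⟩
  · intro s w u hh
    obtain ⟨t, w1, w2, rfl, h1, h2⟩ := inv_seq hh
    obtain ⟨t', w3, w4, rfl, h3, h4⟩ := inv_seq h2
    obtain ⟨rfl, a1, a2⟩ := inv_dec h1
    obtain ⟨rfl, b1, b2⟩ := inv_inc h3
    obtain ⟨rfl, c1, c2⟩ := inv_dec h4
    refine ⟨rfl, fun j x y z => ?_, ?_, ?_⟩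
    · rw [c1 j z, b1 j y, a1 j x]
    · have e1 := c1 .N (by simp)
      have e2 := c1 .T (by simp)
      have e3 := b1 .N (by simp)
      have e4 := a1 .T (by simp)
      omega
    · have e2 := c1 .T (by simp)
      have e3 := b1 (.A i) (by simp)
      have e4 := a1 .T (by simp)
      have e5 := a1 (.A i) (by simp)
      omega

/-- the second loop -/
lemma loop2 {s s' : Reg → ℕ} {w : List T}
    (h : Exec true (.star (.seq (decP T .T) (incP T .N))) s w s') :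
    w = [] ∧ (∀ j, j ≠ .N → j ≠ .T → s' j = s j) ∧ s .N + s .T ≤ s' .N + s' .T := by
  refine inv_star (R := fun s s' => (∀ j, j ≠ Reg.N → j ≠ .T → s' j = s j) ∧
      s .N + s .T ≤ s' .N + s' .T) ?_ ?_ ?_ h
  · exact fun s => ⟨fun _ _ _ => rfl, le_rfl⟩
  · rintro s t u ⟨h1, h2⟩ ⟨h4, h5⟩
    exact ⟨fun j a b => (h4 j a b).trans (h1 j a b), h2.trans h5⟩
  · intro s w u hh
    obtain ⟨t, w1, w2, rfl, h1, h2⟩ := inv_seq hh
    obtain ⟨rfl, a1, a2⟩ := inv_dec h1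
    obtain ⟨rfl, b1, b2⟩ := inv_inc h2
    refine ⟨rfl, fun j x y => ?_, ?_⟩
    · rw [b1 j x, a1 j y]
    · have e2 := b1 .T (by simp)
      have e4 := a1 .N (by simp)
      omega

/-- the amplifier registers -/
def ar (s : Reg → ℕ) : ℕ → ℕ := fun j => s (.A j)

/-- the relation for level `k` -/
def Rel (k : ℕ) (s s' : Reg → ℕ) : Prop :=
  s .T = 0 → s' .T = 0 ∧ (∀ i, s' (.M i) = s (.M i)) ∧ (∀ i, k < i → s' (.A i) = s (.A i)) ∧
    V (ar s) k (s .N) ≤ V (ar s') k (s' .N)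

lemma iter_mono {f : ℕ → ℕ} (hf : Monotone f) (m : ℕ) {x y : ℕ} (h : x ≤ y) :
    f^[m] x ≤ f^[m] y := (hf.iterate m) h

lemma iter_mono' {f : ℕ → ℕ} (hf : Monotone f) (hi : ∀ n, n ≤ f n) {m m' : ℕ} (hm : m ≤ m')
    {x y : ℕ} (h : x ≤ y) : f^[m] x ≤ f^[m'] y := by
  obtain ⟨c, rfl⟩ := Nat.exists_eq_add_of_le hm
  rw [iterate_add_apply]
  refine iter_mono hf m (h.trans ?_)
  clear hm
  induction c with
  | zero => exact le_rfl
  | succ c ih =>
    rw [iterate_succ_apply']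
    exact ih.trans (hi _)

lemma rel_lift (hF : PropF) {j k : ℕ} (hjk : j ≤ k) {s s' : Reg → ℕ} (h : Rel j s s') :
    Rel k s s' := by
  intro hT
  obtain ⟨h1, h2, h3, h4⟩ := h hT
  refine ⟨h1, h2, fun i hi => h3 i (lt_of_le_of_lt hjk hi), ?_⟩
  induction k, hjk using Nat.le_induction with
  | base => exact h4
  | succ k hk ih =>
    change (F (k + 1))^[ar s (k + 1)] (V (ar s) k (s .N)) ≤
      (F (k + 1))^[ar s' (k + 1)] (V (ar s') k (s' .N))
    have : ar s' (k + 1) = ar s (k + 1) := h3 _ (Nat.lt_succ_of_le hk)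
    rw [this]
    exact iter_mono (hF.1 _) _ ih

lemma bm_zero (hF : PropF) {s s' : Reg → ℕ} {w : List T} (h : Exec true (BM T 0) s w s') :
    w = [] ∧ Rel 0 s s' := by
  obtain ⟨t, w1, w2, rfl, h1, h2⟩ := inv_seq h
  obtain ⟨rfl, a1, a2⟩ := inv_dec h1
  obtain ⟨rfl, b1, b2⟩ := inv_inc h2
  refine ⟨rfl, fun hT => ⟨?_, ?_, ?_, ?_⟩⟩
  · rw [b1 .T (by simp), a1 .T (by simp), hT]
  · intro i
    rw [b1 (.M i) (by simp), a1 (.M i) (by simp)]
  · intro i hi
    rw [b1 (.A i) (by simpa using hi.ne'), a1 (.A i) (by simp)]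
  · change (F 0)^[s (.A 0)] (s .N) ≤ (F 0)^[s' (.A 0)] (s' .N)
    rw [b2, a1 (.A 0) (by simp), b1 .N (by simp), iterate_succ_apply]
    refine iter_mono (hF.1 0) _ ?_
    exact a2

lemma V_low (hF : PropF) {a : ℕ → ℕ} {i : ℕ} (h : ∀ m, m < i → a m = 0) (n : ℕ) :
    V a i n = (F i)^[a i] n := by
  cases i with
  | zero => rfl
  | succ i =>
    change (F (i + 1))^[a (i + 1)] (V a i n) = _
    rw [hF.2.2.1 a i n fun m hm => h m (Nat.lt_succ_of_le hm)]

lemma bm_succ (hF : PropF) (i : ℕ) {s s' : Reg → ℕ} {w : List T}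
    (h : Exec true (BM T (i + 1)) s w s') : w = [] ∧ Rel (i + 1) s s' := by
  obtain ⟨s1, w1, x1, rfl, h1, g1⟩ := inv_seq h
  obtain ⟨s2, w2, x2, rfl, h2, g2⟩ := inv_seq g1
  obtain ⟨s3, w3, x3, rfl, h3, g3⟩ := inv_seq g2
  obtain ⟨s4, w4, x4, rfl, h4, g4⟩ := inv_seq g3
  obtain ⟨s5, w5, x5, rfl, h5, g5⟩ := inv_seq g4
  obtain ⟨s6, w6, x6, rfl, h6, g6⟩ := inv_seq g5
  obtain ⟨s7, w7, x7, rfl, h7, g7⟩ := inv_seq g6
  obtain ⟨rfl, a1, rfl⟩ := inv_zeroA i h1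
  obtain ⟨rfl, b1, b2⟩ := inv_dec h2
  obtain ⟨rfl, c1, c2, c3⟩ := loop1 h3
  obtain ⟨rfl, d1, rfl⟩ := inv_zero h4
  obtain ⟨rfl, e1, rfl⟩ := inv_zero h5
  obtain ⟨rfl, f1, f2⟩ := loop2 h6
  obtain ⟨rfl, k1, rfl⟩ := inv_zero h7
  obtain ⟨rfl, l1, l2⟩ := inv_inc g7
  refine ⟨rfl, fun hT => ?_⟩
  -- registers other than `N`, `T`, `A i`, `A (i+1)` are unchanged
  have key : ∀ j, j ≠ Reg.N → j ≠ .T → j ≠ .A i → j ≠ .A (i + 1) → s' j = s j := by
    intro j x y z u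
    rw [l1 j u, f1 j x y, c1 j x y z, b1 j z]
  have hT2 : s2 .T = 0 := by rw [b1 .T (by simp), hT]
  have hN2 : s2 .N = s .N := b1 .N (by simp)
  have hT' : s' .T = 0 := by rw [l1 .T (by simp), k1]
  have hN' : s' .N = s6 .N := l1 .N (by simp)
  have hAi : s' (.A i) = 0 := by
    rw [l1 (.A i) (by simp), f1 (.A i) (by simp) (by simp), d1]
  have hAi1 : s' (.A (i + 1)) = s (.A (i + 1)) + 1 := by
    rw [l2, f1 (.A (i + 1)) (by simp) (by simp), c1 (.A (i + 1)) (by simp) (by simp) (by simp),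
      b1 (.A (i + 1)) (by simp)]
  have hlow : ∀ m, m < i → s' (.A m) = 0 := by
    intro m hm
    rw [key (.A m) (by simp) (by simp) (by simpa using hm.ne) (by simp; omega), a1 m hm]
  refine ⟨hT', fun m => key (.M m) (by simp) (by simp) (by simp) (by simp),
    fun m hm => key (.A m) (by simp) (by simp) (by simp; omega) (by simp; omega), ?_⟩
  have hn : s .N ≤ s' .N := by omega
  have ha : s (.A i) ≤ s' .N + 1 := by omega
  change (F (i + 1))^[s (.A (i + 1))] (V (ar s) i (s .N)) ≤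
    (F (i + 1))^[s' (.A (i + 1))] (V (ar s') i (s' .N))
  rw [hAi1, iterate_succ_apply]
  refine iter_mono (hF.1 _) _ ?_
  have hz : V (ar s') i (s' .N) = s' .N := by
    refine hF.2.2.1 _ _ _ fun m hm => ?_
    rcases Nat.lt_or_eq_of_le hm with h8 | rfl
    · exact hlow m h8
    · exact hAi
  rw [hz, V_low hF (a := ar s) a1]
  exact iter_mono' (hF.1 i) (hF.2.1 i) ha hn

lemma bm (hF : PropF) (j : ℕ) {s s' : Reg → ℕ} {w : List T} (h : Exec true (BM T j) s w s') :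
    w = [] ∧ Rel j s s' := by
  cases j with
  | zero => exact bm_zero hF h
  | succ i => exact bm_succ hF i h

lemma alt_bm (hF : PropF) : ∀ (k : ℕ) {s s' : Reg → ℕ} {w : List T},
    Exec true (altP T (BM T) k) s w s' → w = [] ∧ Rel k s s' := by
  intro k
  induction k with
  | zero =>
    intro s s' w h
    exact bm hF 0 h
  | succ k ih =>
    intro s s' w h
    rcases inv_alt h with h1 | h1
    · obtain ⟨h2, h3⟩ := ih h1
      exact ⟨h2, rel_lift hF (Nat.le_succ k) h3⟩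
    · exact bm hF (k + 1) h1

theorem main (h : PropF) : PropAS2 := by
  intro T k n a r w s' hs
  obtain ⟨h1, h2⟩ := inv_star (R := Rel k) (fun s hT => ⟨hT, fun _ => rfl, fun _ _ => rfl, le_rfl⟩)
    (by
      intro s t u hst htu hT
      obtain ⟨a1, a2, a3, a4⟩ := hst hT
      obtain ⟨b1, b2, b3, b4⟩ := htu a1
      exact ⟨b1, fun i => (b2 i).trans (a2 i), fun i hi => (b3 i hi).trans (a3 i hi),
        a4.trans b4⟩)
    (fun s w t ht => alt_bm h k ht) hs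
  obtain ⟨c1, c2, c3, c4⟩ := h2 rfl
  refine ⟨h1, s' .N, ar s', ?_, c3, c4⟩
  funext x
  cases x with
  | N => rfl
  | T => exact c1
  | A j => rfl
  | M i => exact c2 i

end Pool.Agent.W45.FG2.AS2
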